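import Mathlib

/-!
# Isometric actions of Coxeter groups with linear growth
-/

set_option autoImplicit false

namespace Pool.Agent.HCE

theorem finite_ball {B W : Type*} [Finite B] [Group W] {M : CoxeterMatrix B} (cs : CoxeterSystem M W) (m : ℕ) :
    {g : W | cs.length g ≤ m}.Finite := by
  refine ((List.finite_length_le B m).image cs.wordProd).subset ?_
  intro g hg
  obtain ⟨ω, hω, he⟩ := cs.exists_isReduced g
  refine ⟨ω, ?_, he.symm⟩
  show ω.length ≤ m
  rw [← hω.eq, ← he]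
  exact hg

theorem upper {X B W : Type*} [MetricSpace X] [Finite B] [Group W] {M : CoxeterMatrix B} (cs : CoxeterSystem M W)
    (ρ : W →* (X ≃ᵢ X)) (p : X) : ∃ K : ℝ, 0 ≤ K ∧ ∀ g, dist (ρ g p) p ≤ K * cs.length g := by
  obtain ⟨K, hK⟩ := (Set.finite_range fun i => dist (ρ (cs.simple i) p) p).bddAbove
  have hK' : ∀ i, dist (ρ (cs.simple i) p) p ≤ max K 0 := fun i => (hK ⟨i, rfl⟩).trans (le_max_left _ _)
  refine ⟨max K 0, le_max_right _ _, fun g => ?_⟩
  obtain ⟨ω, hω, he⟩ := cs.exists_isReduced g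
  rw [he, hω.eq]
  clear hω he
  induction ω with
  | nil =>
    rw [cs.wordProd_nil, map_one]
    simp
  | cons i ω ih =>
    rw [cs.wordProd_cons, map_mul, List.length_cons]
    have h1 : dist ((ρ (cs.simple i) * ρ (cs.wordProd ω)) p) p ≤ dist (ρ (cs.wordProd ω) p) p + dist (ρ (cs.simple i) p) p := by
      show dist (ρ (cs.simple i) (ρ (cs.wordProd ω) p)) p ≤ _
      refine (dist_triangle _ (ρ (cs.simple i) p) _).trans ?_
      rw [(ρ (cs.simple i)).isometry.dist_eq]
    push_cast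
    have := hK' i
    linarith

theorem qi {X B W : Type*} [MetricSpace X] [Finite B] [Group W] {M : CoxeterMatrix B} (cs : CoxeterSystem M W)
    (ρ : W →* (X ≃ᵢ X)) (o : X) (c : ℝ) (hc : 0 ≤ c) (h : ∀ g, (cs.length g : ℝ) ≤ c * dist (ρ g o) o + c)
    (hne : ∀ g, g ≠ 1 → ρ g o ≠ o) :
    Function.Injective ρ ∧ DiscreteTopology (Set.range fun g : W => (ρ g : X → X)) ∧
      ∀ p : X, ∃ C : ℝ, 0 < C ∧ ∀ g h : W, (cs.length (g⁻¹ * h) : ℝ) ≤ C * dist (ρ g p) (ρ h p) + C ∧
        dist (ρ g p) (ρ h p) ≤ C * cs.length (g⁻¹ * h) := by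
  have hfin : ∀ R : ℝ, {g | dist (ρ g o) o ≤ R}.Finite := by
    intro R
    obtain ⟨m, hm⟩ := exists_nat_ge (c * R + c)
    refine (finite_ball cs m).subset ?_
    intro g hg
    have h1 := h g
    have h2 : c * dist (ρ g o) o ≤ c * R := mul_le_mul_of_nonneg_left hg hc
    have h3 : (cs.length g : ℝ) ≤ m := by linarith
    exact_mod_cast h3
  refine ⟨?_, ?_, ?_⟩
  · rw [injective_iff_map_eq_one]
    intro g hg
    by_contra hne1
    apply hne g hne1
    rw [hg]
    rfl
  · rw [discreteTopology_iff_isOpen_singleton]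
    rintro ⟨A, g, rfl⟩
    let U : Set (Set.range fun g : W => (ρ g : X → X)) := {f | dist (f.1 o) o < dist (ρ g o) o + 1}
    have hU : IsOpen U := by
      refine isOpen_lt ?_ continuous_const
      exact ((continuous_apply o).comp continuous_subtype_val).dist continuous_const
    have hUf : U.Finite := by
      refine ((hfin (dist (ρ g o) o + 1)).image (fun h => (⟨ρ h, h, rfl⟩ : Set.range fun g : W => (ρ g : X → X)))).subset ?_
      rintro ⟨f, h', rfl⟩ hf
      exact ⟨h', (le_of_lt hf : dist (ρ h' o) o ≤ dist (ρ g o) o + 1), rfl⟩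
    have hg : (⟨ρ g, g, rfl⟩ : Set.range fun g : W => (ρ g : X → X)) ∈ U := by
      show dist (ρ g o) o < dist (ρ g o) o + 1
      linarith
    have hcl : IsClosed (U \ {(⟨ρ g, g, rfl⟩ : Set.range fun g : W => (ρ g : X → X))}) := (hUf.subset Set.sdiff_subset).isClosed
    have hS : ({(⟨ρ g, g, rfl⟩ : Set.range fun g : W => (ρ g : X → X))} : Set (Set.range fun g : W => (ρ g : X → X))) =
        U ∩ (U \ {(⟨ρ g, g, rfl⟩ : Set.range fun g : W => (ρ g : X → X))})ᶜ := by
      ext x
      constructor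
      · intro hx
        rw [Set.mem_singleton_iff] at hx
        subst hx
        exact ⟨hg, fun h => h.2 rfl⟩
      · rintro ⟨h1, h2⟩
        by_contra h3
        exact h2 ⟨h1, h3⟩
    show IsOpen ({(⟨ρ g, g, rfl⟩ : Set.range fun g : W => (ρ g : X → X))} : Set (Set.range fun g : W => (ρ g : X → X)))
    rw [hS]
    exact hU.inter hcl.isOpen_compl
  · intro p
    obtain ⟨K, hK0, hK⟩ := upper cs ρ p
    have hD : 0 ≤ dist p o := dist_nonneg
    have hcD : 0 ≤ c * dist p o := mul_nonneg hc hD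
    refine ⟨c * (2 * dist p o + 1) + K + 1, by nlinarith, fun g h' => ?_⟩
    have e1 : dist (ρ g p) (ρ h' p) = dist (ρ (g⁻¹ * h') p) p := by
      have e2 : ρ h' p = ρ g (ρ (g⁻¹ * h') p) := by
        have e3 : ρ h' = ρ g * ρ (g⁻¹ * h') := by rw [← map_mul, mul_inv_cancel_left]
        rw [e3]
        rfl
      rw [e2, (ρ g).isometry.dist_eq, dist_comm]
    rw [e1]
    have h1 := h (g⁻¹ * h')
    have h2 : dist (ρ (g⁻¹ * h') o) o ≤ dist (ρ (g⁻¹ * h') p) p + 2 * dist p o := by
      have h3 := dist_triangle (ρ (g⁻¹ * h') o) (ρ (g⁻¹ * h') p) o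
      have h4 := dist_triangle (ρ (g⁻¹ * h') p) p o
      rw [(ρ (g⁻¹ * h')).isometry.dist_eq, dist_comm o p] at h3
      linarith
    have h5 := hK (g⁻¹ * h')
    have h6 : (0 : ℝ) ≤ dist (ρ (g⁻¹ * h') p) p := dist_nonneg
    have h7 : c * dist (ρ (g⁻¹ * h') o) o ≤ c * (dist (ρ (g⁻¹ * h') p) p + 2 * dist p o) := mul_le_mul_of_nonneg_left h2 hc
    have h8 : (0 : ℝ) ≤ cs.length (g⁻¹ * h') := Nat.cast_nonneg _
    constructor
    · nlinarith [mul_nonneg hcD h6, mul_nonneg hK0 h6]
    · nlinarith [mul_nonneg hcD h8, mul_nonneg hc h8]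

/-- the length under isomorphisms of Coxeter systems -/
theorem length_iso {B B' W W' : Type*} [Group W] [Group W'] {M : CoxeterMatrix B} {M' : CoxeterMatrix B'} (cs : CoxeterSystem M W)
    (cs' : CoxeterSystem M' W') (e : B → B') (φ : W →* W') (hφ : ∀ i, φ (cs.simple i) = cs'.simple (e i)) (w : W) :
    cs'.length (φ w) ≤ cs.length w := by
  have h1 : ∀ ω : List B, φ (cs.wordProd ω) = cs'.wordProd (ω.map e) := by
    intro ω
    induction ω with
    | nil => simp
    | cons i ω ih => rw [cs.wordProd_cons, map_mul, ih, hφ, List.map_cons, cs'.wordProd_cons]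
  obtain ⟨ω, hω, he⟩ := cs.exists_isReduced w
  have h2 := cs'.length_wordProd_le (ω.map e)
  rw [← h1, List.length_map] at h2
  calc cs'.length (φ w) = cs'.length (φ (cs.wordProd ω)) := by rw [← he]
    _ ≤ ω.length := h2
    _ = cs.length w := by rw [he]; exact hω.eq.symm

end Pool.Agent.HCE
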