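import Pool.Agent.helper53.DC.FD3

/-!
# The representations constructed for hyperbolic Coxeter groups grow exponentially

`D3g` repeats the argument of `Pool.Agent.helper53.DC.F43.D3` and keeps the growth estimate.
-/

set_option autoImplicit false

namespace Pool.Agent.HCE

open CoxeterSystem Pool.Agent.helper53.DC Pool.Agent.helper53.DC.F43

theorem D3g (hI6 : I6_stmt) (hI7 : I7_stmt) (hD2 : D2_stmt) (hA6 : A6_stmt)
    (hA14 : A14_stmt) (hA15 : A15_stmt) (hW1 : W1_stmt)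
    {B W : Type} [Group W] [Finite B] {M : CoxeterMatrix B} (cs : CoxeterSystem M W)
    (g0 D : ℕ) (a μ : ℝ) (hG0 : G0 cs g0) (hDB : DB cs D) (ha : 0 < a) (hμ : 0 < μ)
    (hFS : ∀ R, FSd cs a μ R) :
    ∃ (Z : Type) (_ : Fintype Z) (ρ : W →* Module.End ℝ (LL Z)) (c : ℝ), 0 ≤ c ∧
      (∀ g v w, lf (ρ g v) (ρ g w) = lf v w) ∧ (∀ g, 0 < (ρ g x0).1) ∧
      (∀ g, g ≠ 1 → 1 < (ρ g x0).1) ∧
      ∀ g, (dd cs 1 g : ℝ) ≤ c * Real.log (ρ g x0).1 + c := by
  obtain ⟨G2, hG2⟩ := hD2 cs g0 D hG0 hDB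
  obtain ⟨k0, hk0⟩ := pow_unbounded_of_one_lt (2 / μ) (show (1 : ℝ) < 1 + 2 * μ by linarith)
  have hk0' : 2 ≤ μ * (1 + 2 * μ) ^ k0 := by
    rw [div_lt_iff₀ hμ] at hk0
    linarith
  obtain ⟨Z, _, _, β, hβ1, hβ2, hβ3, hβ4⟩ := hFS ((k0 + 1) * G2 + 1)
  obtain ⟨ρ, hρ1, hρ2⟩ := hI7 cs Z β a hβ1 hβ2 hβ3
  obtain ⟨-, -, -, -, w1, -⟩ := hW1 (cw cs) (hA6 cs)
  -- products
  let nv : Wall cs → LL Z := fun r => (-a, β r)
  have hlf : ∀ r r', lf (nv r) (nv r') = -(a ^ 2) + ∑ z, β r z * β r' z := by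
    intro r r'
    show -(-a * -a) + ∑ z, β r z * β r' z = _
    ring
  have hself : ∀ r, lf (nv r) (nv r) = 1 := by
    intro r; rw [hlf, hβ2]; ring
  have hx0 : ∀ r, lf (nv r) x0 = a := by
    intro r; rw [lf_x0_right]; show - -a = a; ring
  have hcross : ∀ r r', (cw cs).Cross r r' → lf (nv r) (nv r') = 0 := by
    intro r r' h; rw [hlf, hβ3 r r' h]; ring
  have hdis : ∀ r r', (cw cs).Dis r r' → Vis cs ((k0 + 1) * G2 + 1) r r' →
      lf (nv r) (nv r') ≤ -μ := by
    intro r r' h h'; rw [hlf]; have := hβ4 r r' h h'; linarith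
  -- the main estimate
  have key : ∀ g : W, g ≠ 1 → 0 < (ρ g x0).1 ∧ ∃ T : ℕ, dd cs 1 g ≤ (T + 2) * G2 ∧
      1 + (a * 2 ^ (T / (k0 + 1))) ^ 2 ≤ (ρ g x0).1 ^ 2 := by
    intro g hg
    haveI : Nonempty (Wall cs) := by
      by_contra hne
      haveI hE : IsEmpty B := ⟨fun i => hne ⟨wall cs 1 i⟩⟩
      apply hg
      obtain ⟨ω, -, hω⟩ := cs.exists_isReduced g
      cases ω with
      | nil => simpa using hω
      | cons i _ => exact (hE.false i).elim
    obtain ⟨x, w, hG, hx0', hxn⟩ := hA14 cs 1 g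
    have hpos : 0 < dd cs 1 g := by
      rcases Nat.eq_zero_or_pos (dd cs 1 g) with h | h
      · exact absurd ((dd_eq_zero cs).mp h).symm hg
      · exact h
    obtain ⟨N, hN⟩ : ∃ N, N = dd cs 1 g := ⟨_, rfl⟩
    rw [← hN] at hG hxn hpos
    obtain ⟨b1, b2, b3, -, -⟩ := hA15 cs N x w hG
    obtain ⟨T, u, hu0, hus, huT, hNT, hudis⟩ := hG2 N x w hpos hG
    have hmono := D3_mono T G2 u hus
    have hstep : ∀ k < N, ∃ i, w k = wall cs (x k) i ∧ x (k + 1) = x k * cs.simple i := by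
      intro k hk
      obtain ⟨i, hi⟩ := hG.adj k hk
      refine ⟨i, ?_, hi⟩
      apply Subtype.ext
      rw [wall_val, ← hi, hG.step k hk, mul_inv_cancel_right]
    have hform := hρ2 N x w hx0' hstep
    rw [hxn] at hform
    have hvis : ∀ p q, p < q → q < N → q - p ≤ (k0 + 1) * G2 →
        Vis cs ((k0 + 1) * G2 + 1) (w p) (w q) := by
      intro p q hpq hqN hle
      refine ⟨x p, x (q + 1), ?_, ?_, ?_⟩
      · have := b1 p (q + 1) (by omega) (by omega)
        omega
      · exact (b2 p p (q + 1) (by omega) (by omega) (by omega)).mpr ⟨le_rfl, by omega⟩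
      · exact (b2 q p (q + 1) (by omega) (by omega) (by omega)).mpr ⟨by omega, by omega⟩
    have huN : ∀ s ≤ T, u s < N := by
      intro s hs
      have := (hmono (T - s) s (by omega)).1
      have e : s + (T - s) = T := by omega
      rw [e] at this
      omega
    obtain ⟨c1, c2⟩ := hI6 (fun k => nv (w k)) a μ N G2 T k0 u ha hμ.le hk0'
      (fun i _ => ⟨hself _, hx0 _⟩)
      (by
        intro p q hpq hqN hle
        rcases w1 (w p) (w q) with h | h | h
        · have := b3 p q (by omega) hqN h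
          omega
        · exact (hcross _ _ h).le
        · have := hdis _ _ h (hvis p q hpq hqN hle)
          show lf (nv (w p)) (nv (w q)) ≤ 0
          linarith)
      hus hu0 huT hNT
      (by
        intro s s' hss hs'T hsk
        have e : s + (s' - s) = s' := by omega
        obtain ⟨d1, d2⟩ := hmono (s' - s) s (by omega)
        rw [e] at d1 d2
        refine hdis _ _ (hudis s s' hss hs'T) (hvis _ _ (by omega) (huN s' hs'T) ?_)
        have h3 : (s' - s) * G2 ≤ (k0 + 1) * G2 := Nat.mul_le_mul_right _ (by omega)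
        omega)
    refine ⟨?_, T, ?_, ?_⟩
    · rw [hform]; exact c1.2
    · rw [← hN]
      obtain ⟨d1, d2⟩ := hmono T 0 (by omega)
      rw [zero_add] at d1 d2
      calc N ≤ u T + G2 := hNT
        _ ≤ u 0 + T * G2 + G2 := by omega
        _ ≤ G2 + T * G2 + G2 := by omega
        _ = (T + 2) * G2 := by ring
    · rw [hform]; exact c2
  have hone : (ρ 1 (x0 : LL Z)).1 = 1 := by
    rw [map_one]; rfl
  have hl2 : 0 < Real.log 2 := Real.log_pos (by norm_num)
  have hG : (0 : ℝ) ≤ (k0 + 1) * G2 := by positivity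
  have hA : 0 ≤ |Real.log a| / Real.log 2 + 1 := by positivity
  have hv : ∀ g, g ≠ 1 → 1 < (ρ g x0).1 := by
    intro g hg
    obtain ⟨h1, T, -, h2⟩ := key g hg
    have h3 : 0 < (a * 2 ^ (T / (k0 + 1))) ^ 2 := by positivity
    nlinarith
  refine ⟨Z, inferInstance, ρ, ((k0 + 1) * G2) / Real.log 2 + ((k0 + 1) * G2) * (|Real.log a| / Real.log 2 + 1) + 2 * G2,
    by positivity, hρ1, ?_, hv, ?_⟩
  · intro g
    by_cases hg : g = 1
    · rw [hg, hone]; exact one_pos
    · exact (key g hg).1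
  · intro g
    by_cases hg : g = 1
    · rw [hg, hone, dd_self, Real.log_one]
      have h0 : 0 ≤ ((k0 + 1) * G2) / Real.log 2 + ((k0 + 1) * G2) * (|Real.log a| / Real.log 2 + 1) + 2 * (G2 : ℝ) := by
        positivity
      simpa using h0
    · obtain ⟨h1, T, h2, h3⟩ := key g hg
      have hv1 := hv g hg
      obtain ⟨L, hL⟩ : ∃ L, L = Real.log (ρ g x0).1 := ⟨_, rfl⟩
      obtain ⟨m, hm⟩ : ∃ m, m = T / (k0 + 1) := ⟨_, rfl⟩
      have hL0 : 0 ≤ L := by rw [hL]; exact Real.log_nonneg hv1.le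
      have h4 : a * 2 ^ m ≤ (ρ g x0).1 := by
        rw [← hm] at h3
        have h5 : 0 < a * 2 ^ m := by positivity
        nlinarith
      have h5 : Real.log a + m * Real.log 2 ≤ L := by
        rw [hL, ← Real.log_pow, ← Real.log_mul ha.ne' (by positivity)]
        exact Real.log_le_log (by positivity) h4
      have h6 : (m : ℝ) ≤ L / Real.log 2 + |Real.log a| / Real.log 2 := by
        rw [← add_div, le_div_iff₀ hl2]
        have := neg_abs_le (Real.log a)
        linarith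
      have h7 : T < (m + 1) * (k0 + 1) := by
        rw [hm, ← Nat.div_lt_iff_lt_mul (by omega)]
        omega
      have h8 : (dd cs 1 g : ℝ) ≤ ((T : ℝ) + 2) * G2 := by exact_mod_cast h2
      have h9 : (T : ℝ) ≤ (m + 1) * (k0 + 1) := by exact_mod_cast h7.le
      have hG2 : (0 : ℝ) ≤ G2 := Nat.cast_nonneg _
      rw [← hL]
      calc (dd cs 1 g : ℝ) ≤ ((T : ℝ) + 2) * G2 := h8
        _ ≤ ((m + 1) * (k0 + 1) + 2) * G2 := mul_le_mul_of_nonneg_right (by linarith) hG2
        _ = ((k0 + 1) * G2) * (m + 1) + 2 * G2 := by ring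
        _ ≤ ((k0 + 1) * G2) * (L / Real.log 2 + |Real.log a| / Real.log 2 + 1) + 2 * G2 := by
          have := mul_le_mul_of_nonneg_left h6 hG
          linarith
        _ = ((k0 + 1) * G2) / Real.log 2 * L + ((k0 + 1) * G2) * (|Real.log a| / Real.log 2 + 1) + 2 * G2 := by ring
        _ ≤ (((k0 + 1) * G2) / Real.log 2 + ((k0 + 1) * G2) * (|Real.log a| / Real.log 2 + 1) + 2 * G2) * L +
            (((k0 + 1) * G2) / Real.log 2 + ((k0 + 1) * G2) * (|Real.log a| / Real.log 2 + 1) + 2 * G2) := by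
          have e1 : 0 ≤ ((k0 + 1) * G2) / Real.log 2 := by positivity
          have e2 : 0 ≤ ((k0 + 1) * G2) * (|Real.log a| / Real.log 2 + 1) := mul_nonneg hG hA
          have e3 : 0 ≤ (((k0 + 1) * G2) * (|Real.log a| / Real.log 2 + 1) + 2 * G2) * L := by positivity
          linarith

end Pool.Agent.HCE
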