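import Mathlib

/-!
# Real hyperbolic space as a metric space (hyperboloid model)
-/

set_option autoImplicit false

namespace Pool.Agent.HCE

/-- The Lorentz form `- x₀ y₀ + ∑ i, xᵢ yᵢ` on `ℝ × ℝ ^ n`. -/
def lor {n : ℕ} (x y : ℝ × (Fin n → ℝ)) : ℝ := -(x.1 * y.1) + ∑ i, x.2 i * y.2 i

/-- Real hyperbolic `n`-space: the sheet `x₀ > 0` of the hyperboloid `- x₀ ^ 2 + ∑ i, xᵢ ^ 2 = - 1`. -/
def HypSp (n : ℕ) : Type := {x : ℝ × (Fin n → ℝ) // lor x x = -1 ∧ 0 < x.1}

section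

variable {n : ℕ}

theorem lor_comm (x y : ℝ × (Fin n → ℝ)) : lor x y = lor y x := by
  unfold lor
  rw [mul_comm x.1]
  congr 1
  exact Finset.sum_congr rfl fun i _ => mul_comm _ _

theorem lor_add_left (u v w : ℝ × (Fin n → ℝ)) : lor (u + v) w = lor u w + lor v w := by
  unfold lor
  simp only [Prod.fst_add, Prod.snd_add, Pi.add_apply, add_mul, Finset.sum_add_distrib]
  ring

theorem lor_smul_left (c : ℝ) (v w : ℝ × (Fin n → ℝ)) : lor (c • v) w = c * lor v w := by
  unfold lor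
  simp only [Prod.smul_fst, Prod.smul_snd, Pi.smul_apply, smul_eq_mul, mul_assoc, ← Finset.mul_sum]
  ring

theorem lor_add_right (u v w : ℝ × (Fin n → ℝ)) : lor u (v + w) = lor u v + lor u w := by
  rw [lor_comm, lor_add_left, lor_comm v, lor_comm w]

theorem lor_smul_right (c : ℝ) (v w : ℝ × (Fin n → ℝ)) : lor v (c • w) = c * lor v w := by
  rw [lor_comm, lor_smul_left, lor_comm]

theorem lor_sub_left (u v w : ℝ × (Fin n → ℝ)) : lor (u - v) w = lor u w - lor v w := by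
  have h := lor_smul_left (-1) v w
  rw [neg_one_smul] at h
  rw [sub_eq_add_neg, lor_add_left, h]
  ring

theorem lor_sub_right (u v w : ℝ × (Fin n → ℝ)) : lor u (v - w) = lor u v - lor u w := by
  rw [lor_comm, lor_sub_left, lor_comm v, lor_comm w]

/-- the orthogonal space of a point of the hyperboloid is positive definite -/
theorem lor_perp {y w : ℝ × (Fin n → ℝ)} (hy : lor y y = -1) (hy0 : 0 < y.1) (h : lor w y = 0) :
    0 ≤ lor w w ∧ (lor w w = 0 → w = 0) := by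
  have h1 : w.1 * y.1 = ∑ i, w.2 i * y.2 i := by
    unfold lor at h
    linarith
  have h2 : (∑ i, w.2 i * y.2 i) ^ 2 ≤ (∑ i, w.2 i ^ 2) * ∑ i, y.2 i ^ 2 := Finset.sum_mul_sq_le_sq_mul_sq _ _ _
  have h3 : ∑ i, y.2 i ^ 2 = y.1 ^ 2 - 1 := by
    unfold lor at hy
    have : ∑ i, y.2 i ^ 2 = ∑ i, y.2 i * y.2 i := Finset.sum_congr rfl fun i _ => sq _
    rw [this]
    linarith [sq y.1]
  have h4 : lor w w = -(w.1 ^ 2) + ∑ i, w.2 i ^ 2 := by
    unfold lor
    rw [sq]
    congr 1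
    exact Finset.sum_congr rfl fun i _ => (sq _).symm
  rw [← h1, h3] at h2
  have h5 : 0 ≤ ∑ i, w.2 i ^ 2 := Finset.sum_nonneg fun i _ => sq_nonneg _
  have h6 : 0 < y.1 ^ 2 := by positivity
  have h7 : w.1 ^ 2 * y.1 ^ 2 ≤ (∑ i, w.2 i ^ 2) * y.1 ^ 2 - ∑ i, w.2 i ^ 2 := by
    have : (w.1 * y.1) ^ 2 = w.1 ^ 2 * y.1 ^ 2 := by ring
    rw [← this]
    linarith
  constructor
  · rw [h4]
    by_contra hcon
    push Not at hcon
    nlinarith
  · intro h0
    rw [h4] at h0
    have h8 : ∑ i, w.2 i ^ 2 = w.1 ^ 2 := by linarith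
    rw [h8] at h7
    have h9 : w.1 ^ 2 = 0 := le_antisymm (by linarith) (sq_nonneg _)
    have h10 : w.1 = 0 := by
      rwa [sq_eq_zero_iff] at h9
    rw [h9] at h8
    refine Prod.ext h10 ?_
    funext i
    have h11 := (Finset.sum_eq_zero_iff_of_nonneg (fun i _ => sq_nonneg (w.2 i))).1 h8 i (Finset.mem_univ i)
    show w.2 i = 0
    rwa [sq_eq_zero_iff] at h11

/-- Cauchy-Schwarz in the orthogonal space -/
theorem lor_cs {y u v : ℝ × (Fin n → ℝ)} (hy : lor y y = -1) (hy0 : 0 < y.1) (hu : lor u y = 0) (hv : lor v y = 0) :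
    lor u v ^ 2 ≤ lor u u * lor v v := by
  have h1 : ∀ t : ℝ, 0 ≤ lor v v * (t * t) + (2 * lor u v) * t + lor u u := by
    intro t
    have h2 : lor (u + t • v) y = 0 := by rw [lor_add_left, lor_smul_left, hu, hv]; ring
    have h3 := (lor_perp hy hy0 h2).1
    rw [lor_add_left, lor_add_right, lor_add_right, lor_smul_left, lor_smul_left, lor_smul_right, lor_smul_right, lor_comm v u] at h3
    linarith
  have h4 := discrim_le_zero h1
  unfold discrim at h4
  nlinarith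

theorem lor_pos {x y : ℝ × (Fin n → ℝ)} (hx : lor x x = -1) (hx0 : 0 < x.1) (hy : lor y y = -1) (hy0 : 0 < y.1) : 1 ≤ -lor x y := by
  have h1 : lor (x + lor x y • y) y = 0 := by
    rw [lor_add_left, lor_smul_left, hy]
    ring
  have h2 := (lor_perp hy hy0 h1).1
  rw [lor_add_left, lor_add_right, lor_add_right, lor_smul_left, lor_smul_left, lor_smul_right, lor_smul_right, lor_comm y x, hx, hy] at h2
  have h3 : 1 ≤ lor x y ^ 2 := by nlinarith
  -- the sign
  have h4 : lor x y < 0 := by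
    have e1 : ∀ z : ℝ × (Fin n → ℝ), lor z z = -1 → ∑ i, z.2 i ^ 2 = z.1 ^ 2 - 1 := by
      intro z hz
      unfold lor at hz
      have : ∑ i, z.2 i ^ 2 = ∑ i, z.2 i * z.2 i := Finset.sum_congr rfl fun i _ => sq _
      rw [this]
      linarith [sq z.1]
    have e2 : (∑ i, x.2 i * y.2 i) ^ 2 ≤ (∑ i, x.2 i ^ 2) * ∑ i, y.2 i ^ 2 := Finset.sum_mul_sq_le_sq_mul_sq _ _ _
    rw [e1 x hx, e1 y hy] at e2
    have e3 : 0 ≤ x.1 ^ 2 - 1 := by
      rw [← e1 x hx]
      exact Finset.sum_nonneg fun i _ => sq_nonneg _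
    have e4 : 0 ≤ y.1 ^ 2 - 1 := by
      rw [← e1 y hy]
      exact Finset.sum_nonneg fun i _ => sq_nonneg _
    have e5 : (∑ i, x.2 i * y.2 i) ^ 2 < (x.1 * y.1) ^ 2 := by nlinarith
    have e6 : ∑ i, x.2 i * y.2 i < x.1 * y.1 := lt_of_pow_lt_pow_left₀ 2 (by positivity) e5
    unfold lor
    linarith
  nlinarith

theorem lor_tri {x y z : ℝ × (Fin n → ℝ)} (hx : lor x x = -1) (hy : lor y y = -1) (hy0 : 0 < y.1)
    (hz : lor z z = -1) :
    -lor x z ≤ (-lor x y) * (-lor y z) + Real.sqrt ((-lor x y) ^ 2 - 1) * Real.sqrt ((-lor y z) ^ 2 - 1) := by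
  have h1 : lor (x + lor x y • y) y = 0 := by
    rw [lor_add_left, lor_smul_left, hy]
    ring
  have h2 : lor (z + lor y z • y) y = 0 := by
    rw [lor_add_left, lor_smul_left, hy, lor_comm z y]
    ring
  have h3 := lor_cs hy hy0 h1 h2
  have e1 : lor (x + lor x y • y) (x + lor x y • y) = (-lor x y) ^ 2 - 1 := by
    rw [lor_add_left, lor_add_right, lor_add_right, lor_smul_left, lor_smul_left, lor_smul_right, lor_smul_right, lor_comm y x, hx, hy]
    ring
  have e2 : lor (z + lor y z • y) (z + lor y z • y) = (-lor y z) ^ 2 - 1 := by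
    rw [lor_add_left, lor_add_right, lor_add_right, lor_smul_left, lor_smul_left, lor_smul_right, lor_smul_right, lor_comm z y, hz, hy]
    ring
  have e3 : lor (x + lor x y • y) (z + lor y z • y) = lor x z + lor x y * lor y z := by
    rw [lor_add_left, lor_add_right, lor_add_right, lor_smul_left, lor_smul_left, lor_smul_right, lor_smul_right, hy]
    ring
  rw [e1, e2, e3] at h3
  have h4 : 0 ≤ (-lor x y) ^ 2 - 1 := by
    rw [← e1]
    exact (lor_perp hy hy0 h1).1
  have h5 : -(lor x z + lor x y * lor y z) ≤ Real.sqrt (((-lor x y) ^ 2 - 1) * ((-lor y z) ^ 2 - 1)) := by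
    apply Real.le_sqrt_of_sq_le
    rw [neg_sq]
    exact h3
  rw [Real.sqrt_mul h4] at h5
  linarith

end

/-- The hyperbolic metric: `cosh (dist x y) = - lor x y`. -/
noncomputable instance instMetricSpaceHypSp (n : ℕ) : MetricSpace (HypSp n) where
  dist x y := Real.arcosh (-lor x.1 y.1)
  dist_self x := by
    rw [x.2.1, neg_neg]
    exact Real.arcosh_zero
  dist_comm x y := by rw [lor_comm]
  dist_triangle x y z := by
    have h1 := lor_pos x.2.1 x.2.2 y.2.1 y.2.2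
    have h2 := lor_pos y.2.1 y.2.2 z.2.1 z.2.2
    have h3 := lor_pos x.2.1 x.2.2 z.2.1 z.2.2
    have h4 : -lor x.1 z.1 ≤ Real.cosh (Real.arcosh (-lor x.1 y.1) + Real.arcosh (-lor y.1 z.1)) := by
      rw [Real.cosh_add, Real.cosh_arcosh h1, Real.cosh_arcosh h2, Real.sinh_arcosh h1, Real.sinh_arcosh h2]
      exact lor_tri x.2.1 y.2.1 y.2.2 z.2.1
    have h5 : 0 ≤ Real.arcosh (-lor x.1 y.1) + Real.arcosh (-lor y.1 z.1) := add_nonneg (Real.arcosh_nonneg h1) (Real.arcosh_nonneg h2)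
    have h6 := (Real.arcosh_le_arcosh (by linarith) (Real.cosh_pos _)).2 h4
    rwa [Real.arcosh_cosh h5] at h6
  eq_of_dist_eq_zero := by
    intro x y h
    have h0 := lor_pos x.2.1 x.2.2 y.2.1 y.2.2
    have h1 : -lor x.1 y.1 = 1 := (Real.arcosh_eq_zero_iff h0).1 h
    have h2 : lor x.1 y.1 = -1 := by linarith
    have h3 : lor (x.1 - y.1) y.1 = 0 := by
      rw [lor_sub_left, h2, y.2.1]
      ring
    have h4 : lor (x.1 - y.1) (x.1 - y.1) = 0 := by
      rw [lor_sub_left, lor_sub_right, lor_sub_right, x.2.1, y.2.1, lor_comm y.1 x.1, h2]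
      ring
    exact Subtype.ext (sub_eq_zero.1 ((lor_perp y.2.1 y.2.2 h3).2 h4))

theorem dist_def {n : ℕ} (x y : HypSp n) : dist x y = Real.arcosh (-lor x.1 y.1) := rfl

/-- the base point -/
def base (n : ℕ) : HypSp n := ⟨(1, 0), by simp [lor], by norm_num⟩

end Pool.Agent.HCE
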