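import Pool.Agent.helper18.HCE.Hyp
import Pool.Agent.helper53.DC.Lor

/-!
# From linear representations to isometric actions on hyperbolic space
-/

set_option autoImplicit false

namespace Pool.Agent.HCE

open Pool.Agent.helper53.DC

section

variable {n : ℕ}

theorem lor_one {v : ℝ × (Fin n → ℝ)} (hv : lor v v = -1) : 1 ≤ v.1 ^ 2 := by
  unfold lor at hv
  have h1 : 0 ≤ ∑ i, v.2 i * v.2 i := Finset.sum_nonneg fun i _ => mul_self_nonneg _
  nlinarith

theorem lor_neg {u v : ℝ × (Fin n → ℝ)} : lor (-u) v = -lor u v := by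
  have h := lor_smul_left (-1) u v
  rw [neg_one_smul] at h
  rw [h]
  ring

theorem sheet {u b : ℝ × (Fin n → ℝ)} (hu : lor u u = -1) (hb : lor b b = -1) (hb0 : 0 < b.1) (h : lor u b < 0) : 0 < u.1 := by
  by_contra hcon
  push Not at hcon
  have h1 : lor (-u) (-u) = -1 := by
    rw [lor_neg, lor_comm, lor_neg, hu]
    ring
  have h2 : 0 < (-u).1 := by
    have h3 := lor_one h1
    have h4 : 0 ≤ (-u).1 := by
      show 0 ≤ -u.1
      linarith
    rcases h4.lt_or_eq with h5 | h5
    · exact h5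
    · rw [← h5] at h3
      norm_num at h3
  have h3 := lor_pos h1 h2 hb hb0
  rw [lor_neg] at h3
  linarith

/-- the isometric action defined by a representation -/
theorem exists_iso {W : Type*} [Group W] (ρ : W →* Module.End ℝ (ℝ × (Fin n → ℝ))) (hρ : ∀ g v w, lor (ρ g v) (ρ g w) = lor v w)
    (hpos : ∀ g, 0 < (ρ g (1, 0)).1) : ∃ ρ' : W →* (HypSp n ≃ᵢ HypSp n), ∀ g x, (ρ' g x).1 = ρ g x.1 := by
  have hp : ∀ g (x : HypSp n), lor (ρ g x.1) (ρ g x.1) = -1 ∧ 0 < (ρ g x.1).1 := by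
    intro g x
    refine ⟨by rw [hρ]; exact x.2.1, ?_⟩
    refine sheet (b := ρ g (1, 0)) (by rw [hρ]; exact x.2.1) (by rw [hρ]; simp [lor]) (hpos g) ?_
    rw [hρ]
    have : lor x.1 (1, 0) = -x.1.1 := by simp [lor]
    rw [this]
    linarith [x.2.2]
  let act : W → HypSp n → HypSp n := fun g x => ⟨ρ g x.1, hp g x⟩
  have hmul : ∀ g h x, act (g * h) x = act g (act h x) := by
    intro g h x
    apply Subtype.ext
    show ρ (g * h) x.1 = ρ g (ρ h x.1)
    rw [map_mul]
    rfl
  have hone : ∀ x, act 1 x = x := by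
    intro x
    apply Subtype.ext
    show ρ 1 x.1 = x.1
    rw [map_one]
    rfl
  have hiso : ∀ g, Isometry (act g) := by
    intro g
    refine Isometry.of_dist_eq fun x y => ?_
    rw [dist_def, dist_def]
    show Real.arcosh (-lor (ρ g x.1) (ρ g y.1)) = _
    rw [hρ]
  let F : W → (HypSp n ≃ᵢ HypSp n) := fun g => IsometryEquiv.mk' (act g) (act g⁻¹) (fun x => by rw [← hmul, mul_inv_cancel, hone]) (hiso g)
  refine ⟨{ toFun := F, map_one' := ?_, map_mul' := ?_ }, ?_⟩
  · ext x
    exact hone x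
  · intro g h
    ext x
    exact hmul g h x
  · intro g x
    rfl

/-- change of the index set -/
def trn {Z : Type} (e : Fin n ≃ Z) : (ℝ × (Fin n → ℝ)) ≃ₗ[ℝ] LL Z where
  toFun v := (v.1, fun z => v.2 (e.symm z))
  invFun v := (v.1, fun i => v.2 (e i))
  map_add' v w := rfl
  map_smul' c v := rfl
  left_inv v := by
    refine Prod.ext rfl ?_
    funext i
    simp
  right_inv v := by
    refine Prod.ext rfl ?_
    funext i
    simp

theorem trn_lf {Z : Type} [Fintype Z] (e : Fin n ≃ Z) (v w : ℝ × (Fin n → ℝ)) : lf (trn e v) (trn e w) = lor v w := by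
  unfold lf lor
  congr 1
  exact Equiv.sum_comp e.symm (fun i => v.2 i * w.2 i)

theorem trn_x0 {Z : Type} (e : Fin n ≃ Z) : trn e (1, 0) = (x0 : LL Z) := rfl

/-- the isometric action defined by a representation on the Lorentz space of a finite set -/
theorem exists_iso' {W Z : Type} [Group W] [Fintype Z] (ρ : W →* Module.End ℝ (LL Z)) (hρ : ∀ g v w, lf (ρ g v) (ρ g w) = lf v w)
    (hpos : ∀ g, 0 < (ρ g x0).1) : ∃ (n : ℕ) (ρ' : W →* (HypSp n ≃ᵢ HypSp n)), ∀ g, dist (ρ' g (base n)) (base n) = Real.arcosh (ρ g x0).1 := by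
  let e : Fin (Fintype.card Z) ≃ Z := (Fintype.equivFin Z).symm
  let σ : W →* Module.End ℝ (ℝ × (Fin (Fintype.card Z) → ℝ)) :=
    { toFun := fun g => ((trn e).symm.toLinearMap ∘ₗ ρ g) ∘ₗ (trn e).toLinearMap
      map_one' := by
        refine LinearMap.ext fun v => ?_
        show (trn e).symm (ρ 1 (trn e v)) = v
        rw [map_one]
        exact (trn e).symm_apply_apply v
      map_mul' := by
        intro g h
        refine LinearMap.ext fun v => ?_
        show (trn e).symm (ρ (g * h) (trn e v)) = (trn e).symm (ρ g (trn e ((trn e).symm (ρ h (trn e v)))))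
        rw [(trn e).apply_symm_apply, map_mul]
        rfl }
  have hσ : ∀ g v, trn e (σ g v) = ρ g (trn e v) := fun g v => (trn e).apply_symm_apply _
  have h1 : ∀ g v w, lor (σ g v) (σ g w) = lor v w := by
    intro g v w
    rw [← trn_lf e, hσ, hσ, hρ, trn_lf]
  have h2 : ∀ g, (σ g (1, 0)).1 = (ρ g x0).1 := by
    intro g
    have h3 : (trn e (σ g (1, 0))).1 = (σ g (1, 0)).1 := rfl
    rw [← h3, hσ, trn_x0]
  obtain ⟨ρ', hρ'⟩ := exists_iso σ h1 (fun g => by rw [h2]; exact hpos g)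
  refine ⟨Fintype.card Z, ρ', fun g => ?_⟩
  rw [dist_def, hρ']
  show Real.arcosh (-lor (σ g (1, 0)) (1, 0)) = _
  have h4 : lor (σ g (1, 0)) (1, 0) = -(σ g (1, 0)).1 := by simp [lor]
  rw [h4, neg_neg, h2]

end

end Pool.Agent.HCE
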