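import Pool.Agent.helper18.HCE.Grow
import Pool.Agent.helper18.HCE.Iso
import Pool.Agent.helper18.HCE.Cox
import Pool.Agent.helper53.DC.Asm

/-!
# Hyperbolic Coxeter groups act on hyperbolic spaces with quasi-isometrically embedded orbits
-/

set_option autoImplicit false

universe u v

namespace Pool.Agent.HCE

open CoxeterSystem Pool.Agent.helper53.DC Pool.Agent.helper53.DC.Asm

theorem log_le_arcosh {v : ℝ} (hv : 1 ≤ v) : Real.log v ≤ Real.arcosh v := by
  unfold Real.arcosh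
  refine Real.log_le_log (by linarith) ?_
  have := Real.sqrt_nonneg (v ^ 2 - 1)
  linarith

/-- the case of small universes -/
theorem core {B W : Type} [Group W] [Finite B] {M : CoxeterMatrix B} (cs : CoxeterSystem M W) (δ : ℕ) (hyp : Hyp cs δ) :
    ∃ (n : ℕ) (ρ : W →* (HypSp n ≃ᵢ HypSp n)) (c : ℝ), 0 ≤ c ∧
      (∀ g, (cs.length g : ℝ) ≤ c * dist (ρ g (base n)) (base n) + c) ∧ ∀ g, g ≠ 1 → ρ g (base n) ≠ base n := by
  obtain ⟨g0, hg⟩ := a53_H4 cs δ hyp
  obtain ⟨D, hD⟩ := a53_H5b cs δ hyp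
  obtain ⟨H, hdeep⟩ := a53_H7 cs δ hyp (5 * g0 + 3) (by omega)
  have hsep := fun w w' hw => a53_K12 cs δ hyp H _ g0 w w' hdeep hw hg le_rfl
  obtain ⟨C, hC⟩ := a53_V8 cs H _ g0 hdeep hg (by omega) hsep
  obtain ⟨a, μ, ha, hμ, hF⟩ := a53_V9 cs C hC
  obtain ⟨Z, _, ρ, c, hc, h1, h2, h3, h4⟩ := D3g a53_I6 a53_I7 a53_D2 a53_A6 a53_A14 a53_A15 a53_W1 cs g0 D a μ hg hD ha hμ hF
  obtain ⟨n, ρ', hρ'⟩ := exists_iso' ρ h1 h2
  have hge : ∀ g, 1 ≤ (ρ g x0).1 := by
    intro g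
    by_cases hg1 : g = 1
    · rw [hg1, map_one]
      exact le_refl (1 : ℝ)
    · exact (h3 g hg1).le
  refine ⟨n, ρ', c, hc, ?_, ?_⟩
  · intro g
    rw [hρ']
    have e1 := h4 g
    rw [dd_one_left] at e1
    have e2 := mul_le_mul_of_nonneg_left (log_le_arcosh (hge g)) hc
    linarith
  · intro g hg1 he
    have e1 := hρ' g
    rw [he, dist_self] at e1
    have e2 := Real.arcosh_pos (h3 g hg1)
    linarith

/-- Gromov-hyperbolic Coxeter groups of finite rank: faithful discrete isometric actions with quasi-isometrically embedded orbits. -/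
theorem main {B : Type u} {W : Type v} [Finite B] [Group W] {M : CoxeterMatrix B} (cs : CoxeterSystem M W)
    (hyp : ∃ δ : ℝ, ∀ x y z w : W, (cs.length (x⁻¹ * z) + cs.length (y⁻¹ * w) : ℝ) ≤
      max (cs.length (x⁻¹ * y) + cs.length (z⁻¹ * w) : ℝ) (cs.length (x⁻¹ * w) + cs.length (y⁻¹ * z) : ℝ) + δ) :
    ∃ (n : ℕ) (ρ : W →* (HypSp n ≃ᵢ HypSp n)), 1 ≤ n ∧ Function.Injective ρ ∧
      DiscreteTopology (Set.range fun g : W => (ρ g : HypSp n → HypSp n)) ∧
      ∀ p : HypSp n, ∃ C : ℝ, 0 < C ∧ ∀ g h : W, (cs.length (g⁻¹ * h) : ℝ) ≤ C * dist (ρ g p) (ρ h p) + C ∧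
        dist (ρ g p) (ρ h p) ≤ C * cs.length (g⁻¹ * h) := by
  obtain ⟨δ, hδ⟩ := hyp
  obtain ⟨d, hd⟩ := exists_nat_ge δ
  let e : B ≃ Fin (Nat.card B) := Finite.equivFin B
  let cr : CoxeterSystem (M.reindex e) W := cs.reindex e
  let cs' : CoxeterSystem (M.reindex e) (M.reindex e).Group := (M.reindex e).toCoxeterSystem
  let φ : W ≃* (M.reindex e).Group := cr.mulEquiv
  have hφ : ∀ i, φ (cs.simple i) = cs'.simple (e i) := by
    intro i
    have h1 : cr.simple (e i) = cs.simple i := by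
      rw [cs.reindex_simple, e.symm_apply_apply]
    rw [← h1]
    exact cr.mulEquiv.apply_symm_apply _
  have hφ' : ∀ j, φ.symm (cs'.simple j) = cs.simple (e.symm j) := by
    intro j
    rw [MulEquiv.symm_apply_eq, hφ, e.apply_symm_apply]
  have hlen : ∀ w, cs'.length (φ w) = cs.length w := by
    intro w
    refine le_antisymm (length_iso cs cs' e φ.toMonoidHom hφ w) ?_
    have h1 := length_iso cs' cs e.symm φ.symm.toMonoidHom hφ' (φ w)
    have h2 : φ.symm.toMonoidHom (φ w) = w := φ.symm_apply_apply w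
    rwa [h2] at h1
  have hlen' : ∀ w, cs'.length w = cs.length (φ.symm w) := by
    intro w
    rw [← hlen, φ.apply_symm_apply]
  have hyp' : Hyp cs' d := by
    intro x y z w
    unfold dd
    rw [hlen', hlen', hlen', hlen', hlen', hlen']
    simp only [map_mul, map_inv]
    have h1 := hδ (φ.symm x) (φ.symm y) (φ.symm z) (φ.symm w)
    have h2 : (0 : ℝ) ≤ d := Nat.cast_nonneg _
    have h3 := h1.trans (add_le_add_right (hd.trans (by linarith : (d : ℝ) ≤ 2 * d)) _)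
    exact_mod_cast h3
  obtain ⟨n, ρ, c, hc, h1, h2⟩ := core cs' d hyp'
  have h1' : ∀ g : W, (cs.length g : ℝ) ≤ c * dist ((ρ.comp φ.toMonoidHom) g (base n)) (base n) + c := by
    intro g
    rw [← hlen]
    exact h1 (φ g)
  have h2' : ∀ g : W, g ≠ 1 → (ρ.comp φ.toMonoidHom) g (base n) ≠ base n := by
    intro g hg
    refine h2 (φ g) ?_
    intro h
    exact hg ((MulEquiv.map_eq_one_iff φ).1 h)
  by_cases hn : 1 ≤ n
  · exact ⟨n, ρ.comp φ.toMonoidHom, hn, qi cs _ (base n) c hc h1' h2'⟩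
  · -- the group is trivial
    have hn0 : n = 0 := by omega
    subst hn0
    have hone : ∀ x : HypSp 0, x = base 0 := by
      rintro ⟨⟨a, b⟩, ha, hb⟩
      have e1 : -(a * a) = -1 := by simpa [lor] using ha
      have e2 : a = 1 := by
        have : 0 < a := hb
        nlinarith
      apply Subtype.ext
      refine Prod.ext e2 ?_
      funext i
      exact i.elim0
    have ht : ∀ g : W, g = 1 := by
      intro g
      by_contra hg
      exact h2' g hg (hone _)
    refine ⟨1, 1, le_refl 1, qi cs _ (base 1) 1 zero_le_one ?_ ?_⟩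
    · intro g
      rw [ht g, cs.length_one]
      simp
    · intro g hg
      exact absurd (ht g) hg

/-- The same statement with the action written as a map `W → Hⁿ → Hⁿ`. -/
theorem main' {B : Type u} {W : Type v} [Finite B] [Group W] {M : CoxeterMatrix B} (cs : CoxeterSystem M W)
    (hyp : ∃ δ : ℝ, ∀ x y z w : W, (cs.length (x⁻¹ * z) + cs.length (y⁻¹ * w) : ℝ) ≤
      max (cs.length (x⁻¹ * y) + cs.length (z⁻¹ * w) : ℝ) (cs.length (x⁻¹ * w) + cs.length (y⁻¹ * z) : ℝ) + δ) :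
    ∃ (n : ℕ) (ρ : W → HypSp n → HypSp n), 1 ≤ n ∧
      (∀ x, ρ 1 x = x) ∧ (∀ g h x, ρ (g * h) x = ρ g (ρ h x)) ∧ (∀ g x y, dist (ρ g x) (ρ g y) = dist x y) ∧
      Function.Injective ρ ∧ DiscreteTopology (Set.range ρ) ∧
      ∀ p : HypSp n, ∃ C : ℝ, 0 < C ∧ ∀ g h : W, (cs.length (g⁻¹ * h) : ℝ) ≤ C * dist (ρ g p) (ρ h p) + C ∧
        dist (ρ g p) (ρ h p) ≤ C * cs.length (g⁻¹ * h) := by
  obtain ⟨n, ρ, h1, h2, h3, h4⟩ := main cs hyp
  refine ⟨n, fun g x => ρ g x, h1, ?_, ?_, ?_, ?_, h3, h4⟩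
  · intro x
    show ρ 1 x = x
    rw [map_one]
    rfl
  · intro g h x
    show ρ (g * h) x = ρ g (ρ h x)
    rw [map_mul]
    rfl
  · intro g x y
    exact (ρ g).isometry.dist_eq x y
  · intro g h hgh
    apply h2
    ext x
    exact congrFun hgh x

end Pool.Agent.HCE
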